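import Mathlib

set_option autoImplicit false

/-!
# FAT colourings: every parameter occurs with FAT chromatic number exactly `k`

Let `α = p / q`. The graph has `k` classes of `P` vertices, `P` a large prime, and is regular of
degree `2 q`; every vertex has `2 p` neighbours in each other class. The classes of any FAT colouring
of a connected regular graph have equal sizes, so their number divides `k P`, and it is at most
`2 q + 1 < P`.
-/

namespace Pool.Agent.Results.MP_2d49c6_co.AllParameters

open Finset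

/-- `c` is a FAT `k`-colouring of `G` with parameter `α`: all classes are nonempty, `0 ≤ α ≤ 1`, and
the number of neighbours of `v` in the class `i` is `α · deg v` if `v` is not in the class, and
`(1 - (k - 1) α) · deg v` if `v` is in the class. -/
def IsFAT {V : Type} (G : SimpleGraph V) (k : ℕ) (α : ℝ) (c : V → Fin k) : Prop :=
  Function.Surjective c ∧ 0 ≤ α ∧ α ≤ 1 ∧
    ∀ v i, (({u | G.Adj v u ∧ c u = i}.ncard : ℕ) : ℝ) =
      (if c v = i then 1 - ((k : ℝ) - 1) * α else α) * ((G.neighborSet v).ncard : ℕ)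

/-- `G` has FAT chromatic number `k`: `k` is the largest number of classes of a FAT colouring. -/
def HasFATNumber {V : Type} (G : SimpleGraph V) (k : ℕ) : Prop :=
  IsGreatest {l : ℕ | ∃ (α : ℝ) (c : V → Fin l), IsFAT G l α c} k

section upper

variable {V : Type} {G : SimpleGraph V}

lemma const_of_connected {β : Type} (hG : G.Connected) (f : V → β)
    (h : ∀ u v, G.Adj u v → f u = f v) (u v : V) : f u = f v := by
  obtain ⟨w⟩ := hG.preconnected u v
  induction w with
  | nil => rfl
  | cons hadj _ ih => exact (h _ _ hadj).trans ih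

/-- In a connected regular graph of positive degree `D`, the number of classes of a FAT colouring
is at most `D + 1` and divides the number of vertices. -/
lemma dvd_of_fat [Fintype V] (hG : G.Connected) (D : ℕ) (hreg : ∀ v, (G.neighborSet v).ncard = D)
    {l : ℕ} {α : ℝ} {c : V → Fin l} (h : IsFAT G l α c) :
    l ≤ D + 1 ∧ l ∣ Fintype.card V := by
  classical
  obtain ⟨hsur, h0, -, hc⟩ := h
  rcases Nat.lt_or_ge l 2 with hl | hl
  · interval_cases l
    · obtain ⟨v⟩ := hG.nonempty
      exact (c v).elim0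
    · exact ⟨by omega, one_dvd _⟩
  -- α D > 0
  have hpos : 0 < α * D := by
    by_contra hle
    have hz : α * D = 0 := le_antisymm (not_lt.1 hle) (mul_nonneg h0 (Nat.cast_nonneg _))
    have hadj : ∀ u v, G.Adj u v → c u = c v := by
      intro u v huv
      by_contra hne
      have h1 := hc u (c v)
      rw [if_neg hne, hreg, hz] at h1
      have h2 : {w | G.Adj u w ∧ c w = c v}.ncard = 0 := by exact_mod_cast h1
      rw [Set.ncard_eq_zero (Set.toFinite _)] at h2
      have : v ∈ ({w | G.Adj u w ∧ c w = c v} : Set V) := ⟨huv, rfl⟩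
      rw [h2] at this
      exact this
    obtain ⟨u, hu⟩ := hsur ⟨0, by omega⟩
    obtain ⟨v, hv⟩ := hsur ⟨1, by omega⟩
    have := const_of_connected hG c hadj u v
    rw [hu, hv] at this
    exact absurd (congrArg Fin.val this) (by norm_num)
  have hcount : ∀ v i, c v ≠ i → (({u | G.Adj v u ∧ c u = i}.ncard : ℕ) : ℝ) = α * D := by
    intro v i hvi
    rw [hc v i, if_neg hvi, hreg]
  refine ⟨?_, ?_⟩
  · obtain ⟨v⟩ := hG.nonempty
    have hne : ∀ i : Fin l, i ≠ c v → ∃ u, G.Adj v u ∧ c u = i := by
      intro i hi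
      have h1 := hcount v i (Ne.symm hi)
      have h2 : 0 < {u | G.Adj v u ∧ c u = i}.ncard := by
        have : (0 : ℝ) < (({u | G.Adj v u ∧ c u = i}.ncard : ℕ) : ℝ) := by rw [h1]; exact hpos
        exact_mod_cast this
      obtain ⟨u, hu⟩ := (Set.ncard_pos (Set.toFinite _)).1 h2
      exact ⟨u, hu⟩
    have hsub : (univ.erase (c v)) ⊆ (G.neighborSet v).toFinset.image c := by
      intro i hi
      obtain ⟨u, hu1, hu2⟩ := hne i (Finset.ne_of_mem_erase hi)
      rw [Finset.mem_image]
      exact ⟨u, by simpa using hu1, hu2⟩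
    have h3 := (Finset.card_le_card hsub).trans Finset.card_image_le
    rw [Finset.card_erase_of_mem (mem_univ _), Finset.card_univ, Fintype.card_fin,
      ← Set.ncard_eq_toFinset_card', hreg] at h3
    omega
  · have hsz : ∀ i j : Fin l, i ≠ j → (univ.filter (fun v => c v = i)).card =
        (univ.filter (fun v => c v = j)).card := by
      intro i j hij
      have h1 := Finset.sum_card_bipartiteAbove_eq_sum_card_bipartiteBelow
        (s := univ.filter (fun v => c v = i)) (t := univ.filter (fun v => c v = j))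
        (fun a b => G.Adj a b)
      have h2 : ∀ a ∈ univ.filter (fun v => c v = i),
          ((((univ.filter (fun v => c v = j)).bipartiteAbove (fun a b => G.Adj a b) a).card : ℕ) : ℝ)
            = α * D := by
        intro a ha
        rw [Finset.mem_filter] at ha
        rw [← hcount a j (by rw [ha.2]; exact hij), ← Set.ncard_coe_finset]
        congr 2
        ext x
        simp [Finset.bipartiteAbove, and_comm]
      have h3 : ∀ b ∈ univ.filter (fun v => c v = j),
          ((((univ.filter (fun v => c v = i)).bipartiteBelow (fun a b => G.Adj a b) b).card : ℕ) : ℝ)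
            = α * D := by
        intro b hb
        rw [Finset.mem_filter] at hb
        rw [← hcount b i (by rw [hb.2]; exact hij.symm), ← Set.ncard_coe_finset]
        congr 2
        ext x
        simp [Finset.bipartiteBelow, and_comm, G.adj_comm]
      have h4 : (∑ a ∈ univ.filter (fun v => c v = i),
          ((((univ.filter (fun v => c v = j)).bipartiteAbove (fun a b => G.Adj a b) a).card : ℕ) : ℝ))
          = ∑ b ∈ univ.filter (fun v => c v = j),
          ((((univ.filter (fun v => c v = i)).bipartiteBelow (fun a b => G.Adj a b) b).card : ℕ) : ℝ) :=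
        by exact_mod_cast h1
      rw [Finset.sum_congr rfl h2, Finset.sum_congr rfl h3, Finset.sum_const, Finset.sum_const,
        nsmul_eq_mul, nsmul_eq_mul] at h4
      exact_mod_cast mul_right_cancel₀ hpos.ne' h4
    have hall : ∀ i : Fin l, (univ.filter (fun v => c v = i)).card =
        (univ.filter (fun v => c v = ⟨0, by omega⟩)).card := by
      intro i
      by_cases hi : i = ⟨0, by omega⟩
      · rw [hi]
      · exact hsz _ _ hi
    have h5 : Fintype.card V = ∑ i : Fin l, (univ.filter (fun v => c v = i)).card := by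
      rw [← Finset.card_univ]
      exact Finset.card_eq_sum_card_fiberwise (fun x _ => mem_univ _)
    rw [Finset.sum_congr rfl (fun i _ => hall i), Finset.sum_const, Finset.card_univ,
      Fintype.card_fin, smul_eq_mul] at h5
    exact ⟨_, h5⟩

end upper

section construction

variable (k p m P : ℕ)

/-- The adjacency relation of the example on `Fin k × ZMod P`. -/
def Rel (u v : Fin k × ZMod P) : Prop :=
  (u.1 < v.1 ∧ ∃ a : ℕ, a < 2 * p ∧ v.2 = u.2 + a) ∨
    (v.1 < u.1 ∧ ∃ a : ℕ, a < 2 * p ∧ u.2 = v.2 + a) ∨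
      (u.1 = v.1 ∧ ∃ a : ℕ, a < m ∧ (v.2 = u.2 + (a + 1 : ℕ) ∨ u.2 = v.2 + (a + 1 : ℕ)))

variable {k p m P}

lemma cast_inj {a b : ℕ} (ha : a < P) (hb : b < P) (h : (a : ZMod P) = (b : ZMod P)) : a = b := by
  rw [ZMod.natCast_eq_natCast_iff', Nat.mod_eq_of_lt ha, Nat.mod_eq_of_lt hb] at h
  exact h

/-- The example. -/
def gr (k p m P : ℕ) (hP : 2 * (p + m) < P) : SimpleGraph (Fin k × ZMod P) where
  Adj := Rel k p m P
  symm := ⟨by
    rintro u v (h | h | ⟨h, a, ha, h2 | h2⟩)
    · exact Or.inr (Or.inl h)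
    · exact Or.inl h
    · exact Or.inr (Or.inr ⟨h.symm, a, ha, Or.inr h2⟩)
    · exact Or.inr (Or.inr ⟨h.symm, a, ha, Or.inl h2⟩)⟩
  loopless := ⟨by
    rintro u (h | h | ⟨_, a, ha, h2 | h2⟩)
    · exact lt_irrefl _ h.1
    · exact lt_irrefl _ h.1
    all_goals
      have h3 : ((a + 1 : ℕ) : ZMod P) = ((0 : ℕ) : ZMod P) := by
        rw [Nat.cast_zero]
        exact (add_eq_left.1 h2.symm)
      have := cast_inj (by omega) (by omega) h3
      omega⟩

variable (hP : 2 * (p + m) < P)
include hP

lemma count_lt (u : Fin k × ZMod P) (j : Fin k) (h : u.1 ≠ j) :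
    {v | (gr k p m P hP).Adj u v ∧ v.1 = j}.ncard = 2 * p := by
  classical
  have key : ∀ f : ℕ → Fin k × ZMod P, (∀ a b : ℕ, a < 2 * p → b < 2 * p → f a = f b → a = b) →
      {v | (gr k p m P hP).Adj u v ∧ v.1 = j} = (((Finset.range (2 * p)).image f : Finset _) : Set _) →
      {v | (gr k p m P hP).Adj u v ∧ v.1 = j}.ncard = 2 * p := by
    intro f hf hset
    rw [hset, Set.ncard_coe_finset, Finset.card_image_of_injOn, Finset.card_range]
    intro a ha b hb hab
    rw [Finset.mem_coe, Finset.mem_range] at ha hb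
    exact hf a b ha hb hab
  rcases lt_or_gt_of_ne h with h | h
  · refine key (fun a => (j, u.2 + a)) ?_ ?_
    · intro a b ha hb hab
      have := (Prod.mk.inj hab).2
      exact cast_inj (by omega) (by omega) (add_left_cancel this)
    · ext v
      simp only [Set.mem_setOf_eq, Finset.coe_image, Set.mem_image, Finset.mem_coe,
        Finset.mem_range]
      constructor
      · rintro ⟨h1 | h1 | h1, rfl⟩
        · obtain ⟨_, a, ha, h2⟩ := h1
          exact ⟨a, ha, by rw [← h2]⟩
        · exact absurd h1.1 (not_lt_of_gt h)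
        · exact absurd h1.1 h.ne
      · rintro ⟨a, ha, rfl⟩
        exact ⟨Or.inl ⟨h, a, ha, rfl⟩, rfl⟩
  · refine key (fun a => (j, u.2 - a)) ?_ ?_
    · intro a b ha hb hab
      have := (Prod.mk.inj hab).2
      exact cast_inj (by omega) (by omega) (sub_right_injective this)
    · ext v
      simp only [Set.mem_setOf_eq, Finset.coe_image, Set.mem_image, Finset.mem_coe,
        Finset.mem_range]
      constructor
      · rintro ⟨h1 | h1 | h1, rfl⟩
        · exact absurd h1.1 (not_lt_of_gt h)
        · obtain ⟨_, a, ha, h2⟩ := h1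
          refine ⟨a, ha, ?_⟩
          rw [h2, add_sub_cancel_right]
        · exact absurd h1.1 h.ne'
      · rintro ⟨a, ha, rfl⟩
        exact ⟨Or.inr (Or.inl ⟨h, a, ha, by simp⟩), rfl⟩

lemma count_eq (u : Fin k × ZMod P) :
    {v | (gr k p m P hP).Adj u v ∧ v.1 = u.1}.ncard = 2 * m := by
  classical
  have hset : {v | (gr k p m P hP).Adj u v ∧ v.1 = u.1} =
      (((Finset.range m).image (fun a : ℕ => (u.1, u.2 + (a + 1 : ℕ))) ∪
        (Finset.range m).image (fun a : ℕ => (u.1, u.2 - (a + 1 : ℕ))) : Finset (Fin k × ZMod P)) :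
          Set (Fin k × ZMod P)) := by
    ext v
    simp only [Set.mem_setOf_eq, Finset.coe_union, Finset.coe_image, Set.mem_union, Set.mem_image,
      Finset.mem_coe, Finset.mem_range]
    constructor
    · rintro ⟨h1 | h1 | h1, hv⟩
      · exact absurd h1.1 (by rw [hv]; exact lt_irrefl _)
      · exact absurd h1.1 (by rw [hv]; exact lt_irrefl _)
      · obtain ⟨_, a, ha, h2 | h2⟩ := h1
        · exact Or.inl ⟨a, ha, Prod.ext hv.symm h2.symm⟩
        · refine Or.inr ⟨a, ha, Prod.ext hv.symm ?_⟩
          simp only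
          rw [h2, add_sub_cancel_right]
    · rintro (⟨a, ha, rfl⟩ | ⟨a, ha, rfl⟩)
      · exact ⟨Or.inr (Or.inr ⟨rfl, a, ha, Or.inl rfl⟩), rfl⟩
      · exact ⟨Or.inr (Or.inr ⟨rfl, a, ha, Or.inr (by simp)⟩), rfl⟩
  rw [hset, Set.ncard_coe_finset, Finset.card_union_of_disjoint]
  · rw [Finset.card_image_of_injOn, Finset.card_image_of_injOn, Finset.card_range]
    · omega
    · intro a ha b hb hab
      rw [Finset.mem_coe, Finset.mem_range] at ha hb
      have := sub_right_injective (Prod.mk.inj hab).2
      have := cast_inj (P := P) (by omega) (by omega) this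
      omega
    · intro a ha b hb hab
      rw [Finset.mem_coe, Finset.mem_range] at ha hb
      have := add_left_cancel (Prod.mk.inj hab).2
      have := cast_inj (P := P) (by omega) (by omega) this
      omega
  · rw [Finset.disjoint_left]
    intro v hv hv'
    rw [Finset.mem_image] at hv hv'
    obtain ⟨a, ha, rfl⟩ := hv
    obtain ⟨b, hb, hab⟩ := hv'
    rw [Finset.mem_range] at ha hb
    have h1 := (Prod.mk.inj hab).2
    have h2 : ((a + 1 + (b + 1) : ℕ) : ZMod P) = ((0 : ℕ) : ZMod P) := by
      push_cast at h1 ⊢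
      linear_combination -h1
    have := cast_inj (by omega) (by omega) h2
    omega

lemma degree (u : Fin k × ZMod P) :
    ((gr k p m P hP).neighborSet u).ncard = 2 * ((k - 1) * p + m) := by
  classical
  have : NeZero P := ⟨by omega⟩
  have h1 : ((gr k p m P hP).neighborSet u).ncard =
      ∑ j : Fin k, {v | (gr k p m P hP).Adj u v ∧ v.1 = j}.ncard := by
    rw [Set.ncard_eq_toFinset_card', Finset.card_eq_sum_card_fiberwise
      (f := fun v : Fin k × ZMod P => v.1) (t := univ) (fun x _ => mem_univ _)]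
    refine Finset.sum_congr rfl fun j _ => ?_
    rw [← Set.ncard_coe_finset]
    congr 1
    ext v
    simp
  rw [h1, ← Finset.add_sum_erase _ _ (mem_univ u.1), count_eq hP u,
    Finset.sum_congr rfl (fun j hj => count_lt hP u j (Finset.ne_of_mem_erase hj).symm),
    Finset.sum_const, Finset.card_erase_of_mem (mem_univ _), Finset.card_univ, Fintype.card_fin,
    smul_eq_mul]
  ring

lemma conn (hk : 2 ≤ k) (hp : 1 ≤ p) : (gr k p m P hP).Connected := by
  have : NeZero P := ⟨by omega⟩
  set G := gr k p m P hP with hG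
  have hv : ∀ (i j : Fin k) (x : ZMod P), i ≠ j → G.Reachable (i, x) (j, x) := by
    intro i j x hij
    rcases lt_or_gt_of_ne hij with h | h
    · exact SimpleGraph.Adj.reachable (Or.inl ⟨h, 0, by omega, by simp⟩)
    · exact SimpleGraph.Adj.reachable (Or.inr (Or.inl ⟨h, 0, by omega, by simp⟩))
  have hv' : ∀ (i j : Fin k) (x : ZMod P), G.Reachable (i, x) (j, x) := by
    intro i j x
    by_cases h : i = j
    · rw [h]
    · exact hv i j x h
  have hstep : ∀ x : ZMod P, G.Reachable ((⟨0, by omega⟩ : Fin k), x) ((⟨0, by omega⟩ : Fin k), x + 1) := by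
    intro x
    have h1 : G.Adj ((⟨0, by omega⟩ : Fin k), x) ((⟨1, by omega⟩ : Fin k), x + 1) :=
      Or.inl ⟨by simp [Fin.lt_def], 1, by omega, by simp⟩
    exact h1.reachable.trans (hv' _ _ _)
  have hall : ∀ n : ℕ, G.Reachable ((⟨0, by omega⟩ : Fin k), (0 : ZMod P))
      ((⟨0, by omega⟩ : Fin k), (n : ZMod P)) := by
    intro n
    induction n with
    | zero => simp
    | succ n ih =>
      rw [Nat.cast_succ]
      exact ih.trans (hstep _)
  have hroot : ∀ v : Fin k × ZMod P, G.Reachable ((⟨0, by omega⟩ : Fin k), (0 : ZMod P)) v := by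
    rintro ⟨i, x⟩
    have h1 := hall x.val
    rw [ZMod.natCast_zmod_val] at h1
    exact h1.trans (hv' _ _ _)
  exact { preconnected := fun u v => (hroot u).symm.trans (hroot v)
          nonempty := ⟨((⟨0, by omega⟩ : Fin k), (0 : ZMod P))⟩ }

end construction

/-- **The answer is yes.** For every `k ≥ 2` and every rational `α` with `0 < α ≤ 1 / (k - 1)` there
is a finite connected graph with FAT chromatic number `k` which has a FAT `k`-colouring with
parameter `α`. -/
theorem result : ∀ k : ℕ, 2 ≤ k → ∀ α : ℚ, 0 < α → α ≤ 1 / ((k : ℚ) - 1) →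
    ∃ (V : Type) (_ : Fintype V) (G : SimpleGraph V), G.Connected ∧ HasFATNumber G k ∧
      ∃ c : V → Fin k, IsFAT G k (α : ℝ) c := by
  intro k hk α hα0 hα1
  obtain ⟨p, hp⟩ : ∃ p : ℕ, α.num = p := ⟨α.num.toNat, by
    rw [Int.toNat_of_nonneg (Rat.num_pos.2 hα0).le]⟩
  have hp1 : 1 ≤ p := by
    have := Rat.num_pos.2 hα0
    rw [hp] at this
    exact_mod_cast this
  have hk1 : (0 : ℚ) < (k : ℚ) - 1 := by
    have : (2 : ℚ) ≤ k := by exact_mod_cast hk
    linarith
  have hq0 : 0 < α.den := α.den_pos
  have hαq : α = (p : ℚ) / α.den := by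
    conv_lhs => rw [← Rat.num_div_den α]
    rw [hp]
    push_cast
    rfl
  have hle : (k - 1) * p ≤ α.den := by
    have h1 : α * ((k : ℚ) - 1) ≤ 1 := by
      rwa [le_div_iff₀ hk1] at hα1
    have hq : (0 : ℚ) < α.den := by exact_mod_cast hq0
    have h2 : α * α.den = p := by
      rw [mul_comm]; exact (Rat.den_mul_eq_num α).trans (by rw [hp]; push_cast; rfl)
    have h3 : ((k : ℚ) - 1) * p ≤ α.den := by
      rw [← h2]
      nlinarith
    have h4 : (((k - 1 : ℕ) : ℚ)) = (k : ℚ) - 1 := by
      rw [Nat.cast_sub (by omega)]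
      push_cast
      rfl
    rw [← h4] at h3
    exact_mod_cast h3
  obtain ⟨m, hm⟩ : ∃ m, α.den = (k - 1) * p + m := ⟨α.den - (k - 1) * p, by omega⟩
  obtain ⟨P, hPge, hPp⟩ := Nat.exists_infinite_primes (2 * α.den + 2 * (p + m) + 2)
  have hP : 2 * (p + m) < P := by omega
  have : NeZero P := ⟨hPp.ne_zero⟩
  have hreg := degree (k := k) hP
  have hDR : ((2 * ((k - 1) * p + m) : ℕ) : ℝ) = 2 * α.den := by
    rw [← hm]
    push_cast
    rfl
  have hαR : (α : ℝ) * α.den = p := by
    have h2 : α * α.den = p := by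
      rw [mul_comm]; exact (Rat.den_mul_eq_num α).trans (by rw [hp]; push_cast; rfl)
    exact_mod_cast congrArg (fun x : ℚ => (x : ℝ)) h2
  have hmR : (α.den : ℝ) = ((k : ℝ) - 1) * p + m := by
    have h4 : (((k - 1 : ℕ) : ℝ)) = (k : ℝ) - 1 := by
      rw [Nat.cast_sub (by omega)]
      push_cast
      rfl
    rw [hm, ← h4]
    push_cast
    rfl
  have hfat : IsFAT (gr k p m P hP) k (α : ℝ) Prod.fst := by
    refine ⟨fun i => ⟨(i, 0), rfl⟩, by exact_mod_cast hα0.le, ?_, ?_⟩
    · have h1 : α ≤ 1 := by
        refine hα1.trans ?_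
        rw [div_le_one hk1]
        have : (2 : ℚ) ≤ k := by exact_mod_cast hk
        linarith
      exact_mod_cast h1
    · intro v i
      rw [hreg v, hDR]
      split_ifs with h
      · rw [← h, count_eq hP v]
        push_cast
        linear_combination (2 * ((k : ℝ) - 1)) * hαR - 2 * hmR
      · rw [count_lt hP v i h]
        push_cast
        linear_combination (-2 : ℝ) * hαR
  refine ⟨Fin k × ZMod P, inferInstance, gr k p m P hP, conn hP hk hp1, ⟨⟨α, _, hfat⟩, ?_⟩, _, hfat⟩
  rintro l ⟨β, c, hc⟩
  obtain ⟨h1, h2⟩ := dvd_of_fat (conn hP hk hp1) _ hreg hc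
  have hl0 : 0 < l := by
    rcases Nat.eq_zero_or_pos l with rfl | h
    · exact (c (⟨0, by omega⟩, 0)).elim0
    · exact h
  rw [Fintype.card_prod, Fintype.card_fin, ZMod.card] at h2
  have hcop : Nat.Coprime l P := by
    rw [Nat.coprime_comm]
    exact (Nat.Prime.coprime_iff_not_dvd hPp).2 (fun h => by
      have := Nat.le_of_dvd hl0 h
      rw [← hm] at h1
      omega)
  exact Nat.le_of_dvd (by omega) (hcop.dvd_of_dvd_mul_right h2)

end Pool.Agent.Results.MP_2d49c6_co.AllParameters
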